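import Mathlib
import Pool.Agent.InvGen.Main

/-!
# An infinite simple linear group that is invariably generated
-/

set_option autoImplicit false

namespace Pool.Agent.Results.MP_d69214_al.SimpleLinearIG

open Pool.Agent.InvGen

/-- a subgroup normalised by `G` that contains a non-trivial transvection contains `G` -/
lemma le_of_transvection (C : Subgroup GL2) (hconj : ∀ g ∈ G, ∀ c ∈ C, g * c * g⁻¹ ∈ C)
    (y : L) (hy : y ∈ K0) (hy0 : y ≠ 0) (hE : E y ∈ C) : G ≤ C := by
  have hall : ∀ μ ∈ K0, E μ ∈ C := by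
    intro μ hμ
    by_cases hμ0 : μ = 0
    · have : E μ = 1 := by rw [mk_one]; exact mk_congr _ rfl hμ0 rfl rfl
      rw [this]; exact one_mem _
    obtain ⟨l, hl, hlμ⟩ := K0_sqrt (div_mem hμ hy)
    have hl0 : l ≠ 0 := by
      rintro rfl
      have : μ / y = 0 := by rw [← hlμ]; ring
      rw [div_eq_zero_iff] at this
      exact this.elim hμ0 hy0
    have h1 := hconj _ (D_mem hl hl0) _ hE
    have h2 : D l hl0 * E y * (D l hl0)⁻¹ = E μ := by
      unfold D E
      rw [mk_inv, mk_mul, mk_mul]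
      apply mk_congr
      · field_simp; ring
      · have h3 : l ^ 2 * y = μ := by rw [hlμ]; field_simp
        rw [← h3]; ring
      · ring
      · field_simp; ring
    rwa [h2] at h1
  have hw : (0 : L) * 0 - 1 * 1 = 1 := by
    have := two_eq_zero
    linear_combination -this
  have hwG : mk 0 1 1 0 hw ∈ G :=
    ⟨_, _, _, _, _, zero_mem _, one_mem _, one_mem _, zero_mem _, rfl⟩
  have hall' : ∀ μ ∈ K0, E' μ ∈ C := by
    intro μ hμ
    have h1 := hconj _ hwG _ (hall μ hμ)
    have h2 : mk 0 1 1 0 hw * E μ * (mk 0 1 1 0 hw)⁻¹ = E' μ := by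
      unfold E E'
      rw [mk_inv, mk_mul, mk_mul]
      have := two_eq_zero
      apply mk_congr
      · linear_combination -this
      · ring
      · linear_combination -μ * this
      · linear_combination -this
    rwa [h2] at h1
  exact gen C hall hall'

lemma exists_l : ∃ l ∈ K0, l ≠ 0 ∧ l ≠ 1 := by
  by_contra hcon
  push Not at hcon
  apply K0_infinite
  apply Set.Finite.subset (Set.toFinite ({0, 1} : Set L))
  intro x hx
  by_cases h : x = 0
  · simp [h]
  · simp [hcon x hx h]

lemma sq_sub_one_ne {l : L} (hl : l ≠ 1) : l ^ 2 - 1 ≠ 0 := by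
  intro h
  have h1 : (l - 1) ^ 2 = 0 := by
    have := two_eq_zero
    linear_combination h + (1 - l) * this
  have := pow_eq_zero_iff (two_ne_zero) |>.mp h1
  exact hl (sub_eq_zero.mp this)

/-- a non-trivial subgroup normalised by `G` contains a non-trivial transvection -/
lemma exists_transvection (C : Subgroup GL2) (hCG : C ≤ G)
    (hconj : ∀ g ∈ G, ∀ c ∈ C, g * c * g⁻¹ ∈ C) (g : GL2) (hg : g ∈ C) (hg1 : g ≠ 1) :
    ∃ y ∈ K0, y ≠ 0 ∧ E y ∈ C := by
  obtain ⟨a, b, c, d, h, ha, hb, hc, hd, rfl⟩ := hCG hg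
  by_cases hc0 : c = 0
  · subst hc0
    have had : a * d = 1 := by linear_combination h
    by_cases ha1 : a = 1
    · subst ha1
      have hd1 : d = 1 := by linear_combination had
      subst hd1
      refine ⟨b, hb, ?_, ?_⟩
      · rintro rfl
        exact hg1 (by rw [mk_one])
      · exact hg
    · refine ⟨a ^ 2 - 1, sub_mem (pow_mem ha 2) (one_mem _), sq_sub_one_ne ha1, ?_⟩
      have h1 : mk a b 0 d h * (E 1 * (mk a b 0 d h)⁻¹ * (E 1)⁻¹) ∈ C := by
        apply mul_mem hg
        exact hconj _ (E_mem (one_mem _)) _ (inv_mem hg)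
      have h2 : mk a b 0 d h * (E 1 * (mk a b 0 d h)⁻¹ * (E 1)⁻¹) = E (a ^ 2 - 1) := by
        unfold E
        rw [mk_inv, mk_inv, mk_mul, mk_mul, mk_mul]
        apply mk_congr
        · linear_combination had
        · linear_combination (-b - a ^ 2 * 0 - 1) * had + b * had
        · ring
        · linear_combination had
      rwa [h2] at h1
  · -- conjugate so that the upper left entry is zero
    obtain ⟨u, hu⟩ : ∃ u, u = a / c := ⟨_, rfl⟩
    have huK : u ∈ K0 := by rw [hu]; exact div_mem ha hc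
    have huc : u * c = a := by rw [hu]; field_simp
    obtain ⟨l, hl, hl0, hl1⟩ := exists_l
    obtain ⟨b₁, hb₁⟩ : ∃ b₁, b₁ = b - u * d := ⟨_, rfl⟩
    obtain ⟨t, ht⟩ : ∃ t, t = c * u + d := ⟨_, rfl⟩
    have hb₁K : b₁ ∈ K0 := by rw [hb₁]; exact sub_mem hb (mul_mem huK hd)
    have htK : t ∈ K0 := by rw [ht]; exact add_mem (mul_mem hc huK) hd
    have hbc : -(b₁ * c) = 1 := by rw [hb₁]; linear_combination h + d * huc
    have hdet₁ : 0 * t - b₁ * c = 1 := by linear_combination hbc
    have hg₁ : mk 0 b₁ c t hdet₁ ∈ C := by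
      have h1 := hconj _ (E_mem (neg_mem huK)) _ hg
      have h2 : E (-u) * mk a b c d h * (E (-u))⁻¹ = mk 0 b₁ c t hdet₁ := by
        unfold E
        rw [mk_inv, mk_mul, mk_mul]
        apply mk_congr
        · linear_combination -huc
        · rw [hb₁]; linear_combination (-u) * huc
        · ring
        · rw [ht]; ring
      rwa [h2] at h1
    have hdet₂ : l ^ 2 * l⁻¹ ^ 2 - 0 * (c * t * (l⁻¹ ^ 2 - 1)) = 1 := by
      field_simp; ring
    have hm : mk (l ^ 2) 0 (c * t * (l⁻¹ ^ 2 - 1)) (l⁻¹ ^ 2) hdet₂ ∈ C := by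
      have h1 : D l hl0 * mk 0 b₁ c t hdet₁ * (D l hl0)⁻¹ * (mk 0 b₁ c t hdet₁)⁻¹ ∈ C :=
        mul_mem (hconj _ (D_mem hl hl0) _ hg₁) (inv_mem hg₁)
      have h2 : D l hl0 * mk 0 b₁ c t hdet₁ * (D l hl0)⁻¹ * (mk 0 b₁ c t hdet₁)⁻¹ =
          mk (l ^ 2) 0 (c * t * (l⁻¹ ^ 2 - 1)) (l⁻¹ ^ 2) hdet₂ := by
        unfold D
        rw [mk_inv, mk_inv, mk_mul, mk_mul, mk_mul]
        apply mk_congr
        · linear_combination l ^ 2 * hbc
        · ring
        · field_simp
          ring
        · linear_combination l⁻¹ ^ 2 * hbc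
      rwa [h2] at h1
    have hdet₃ : (1 : L) * 1 - 0 * (l⁻¹ ^ 4 - 1) = 1 := by ring
    have hE' : mk 1 0 (l⁻¹ ^ 4 - 1) 1 hdet₃ ∈ C := by
      have h1 := mul_mem hm (hconj _ (E'_mem (one_mem _)) _ (inv_mem hm))
      have h2 : mk (l ^ 2) 0 (c * t * (l⁻¹ ^ 2 - 1)) (l⁻¹ ^ 2) hdet₂ *
          (E' 1 * (mk (l ^ 2) 0 (c * t * (l⁻¹ ^ 2 - 1)) (l⁻¹ ^ 2) hdet₂)⁻¹ * (E' 1)⁻¹) =
          mk 1 0 (l⁻¹ ^ 4 - 1) 1 hdet₃ := by
        unfold E'
        rw [mk_inv, mk_inv, mk_mul, mk_mul, mk_mul]
        apply mk_congr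
        · field_simp; ring
        · field_simp; ring
        · field_simp; ring
        · field_simp; ring
      rwa [h2] at h1
    have hw : (0 : L) * 0 - 1 * 1 = 1 := by
      have := two_eq_zero
      linear_combination -this
    have hwG : mk 0 1 1 0 hw ∈ G :=
      ⟨_, _, _, _, _, zero_mem _, one_mem _, one_mem _, zero_mem _, rfl⟩
    refine ⟨l⁻¹ ^ 4 - 1, sub_mem (pow_mem (inv_mem hl) 4) (one_mem _), ?_, ?_⟩
    · have h1 : l⁻¹ ≠ 1 := by
        intro h
        exact hl1 (inv_eq_one.mp h)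
      have h2 : l⁻¹ ^ 2 ≠ 1 := fun h => sq_sub_one_ne h1 (sub_eq_zero.mpr h)
      have h3 := sq_sub_one_ne h2
      rwa [← pow_mul] at h3
    · have h1 := hconj _ hwG _ hE'
      have h2 : mk 0 1 1 0 hw * mk 1 0 (l⁻¹ ^ 4 - 1) 1 hdet₃ * (mk 0 1 1 0 hw)⁻¹ =
          E (l⁻¹ ^ 4 - 1) := by
        unfold E
        rw [mk_inv, mk_mul, mk_mul]
        have := two_eq_zero
        apply mk_congr
        · linear_combination -this
        · linear_combination (-(l⁻¹ ^ 4 - 1)) * this
        · ring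
        · linear_combination -this
      rwa [h2] at h1

lemma isSimpleGroup_G : IsSimpleGroup G := by
  have hnt : Nontrivial G := by
    refine ⟨⟨⟨E 1, E_mem (one_mem _)⟩, 1, ?_⟩⟩
    intro h
    exact one_ne_zero (E_eq_one (congrArg Subtype.val h))
  refine ⟨fun N hN => ?_⟩
  by_cases hbot : N = ⊥
  · exact Or.inl hbot
  right
  obtain ⟨⟨x, hx⟩, hx1'⟩ := Subgroup.ne_bot_iff_exists_ne_one.mp hbot
  have hx1 : x ≠ 1 := fun h => hx1' (Subtype.ext h)
  let C : Subgroup GL2 := N.map G.subtype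
  have hCG : C ≤ G := by
    rintro _ ⟨g, _, rfl⟩
    exact g.2
  have hconj : ∀ g ∈ G, ∀ c ∈ C, g * c * g⁻¹ ∈ C := by
    rintro g hg _ ⟨c, h1, rfl⟩
    have h2 := hN.conj_mem c h1 ⟨g, hg⟩
    exact Subgroup.mem_map_of_mem G.subtype h2
  obtain ⟨y, hy, hy0, hyC⟩ := exists_transvection C hCG hconj x.1 ⟨x, hx, rfl⟩
    (fun h => hx1 (Subtype.ext h))
  have h := le_of_transvection C hconj y hy hy0 hyC
  rw [eq_top_iff]
  rintro ⟨g, hg⟩ -
  obtain ⟨g', h1, h2⟩ := h hg
  have : g' = ⟨g, hg⟩ := Subtype.ext h2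
  rwa [← this]

lemma infinite_G : Infinite G := by
  have hinf : Infinite K0 := K0_infinite.to_subtype
  refine Infinite.of_injective (fun x : K0 => (⟨E x, E_mem x.2⟩ : G)) ?_
  intro x y hxy
  have h1 : E (x : L) = E (y : L) := congrArg Subtype.val hxy
  exact Subtype.ext (mk_inj h1).2.1

lemma not_comm : ¬ ∀ a b : G, a * b = b * a := by
  intro hcomm
  have h := hcomm ⟨E 1, E_mem (one_mem _)⟩ ⟨E' 1, E'_mem (one_mem _)⟩
  have h1 : E 1 * E' 1 = E' 1 * E 1 := congrArg Subtype.val h
  unfold E E' at h1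
  rw [mk_mul, mk_mul] at h1
  obtain ⟨e, -, -, -⟩ := mk_inj h1
  apply one_ne_zero (α := L)
  linear_combination e

/-! ### transfer to the general linear group over the small field -/

/-- the inclusion of the general linear groups -/
noncomputable def φ : Matrix.GeneralLinearGroup (Fin 2) K0 →* GL2 :=
  Matrix.GeneralLinearGroup.map K0.subtype

lemma φ_apply (g : Matrix.GeneralLinearGroup (Fin 2) K0) (i j : Fin 2) :
    (φ g).1 i j = (g.1 i j : L) := rfl

lemma φ_injective : Function.Injective φ := by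
  intro g h hgh
  apply Units.ext
  ext i j
  rw [← φ_apply, ← φ_apply, hgh]

/-- the elements of determinant one -/
noncomputable def S : Subgroup (Matrix.GeneralLinearGroup (Fin 2) K0) :=
  (Matrix.GeneralLinearGroup.det (n := Fin 2) (R := K0)).ker

lemma mem_S (g : Matrix.GeneralLinearGroup (Fin 2) K0) :
    g ∈ S ↔ (g : Matrix (Fin 2) (Fin 2) K0).det = 1 := by
  unfold S
  rw [MonoidHom.mem_ker, ← Units.val_inj]
  rfl

lemma map_S : S.map φ = G := by
  ext g
  constructor
  · rintro ⟨a, ha, rfl⟩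
    have h1 : (a : Matrix (Fin 2) (Fin 2) K0).det = 1 := (mem_S a).1 ha
    rw [Matrix.det_fin_two] at h1
    have h2 : (a.1 0 0 : L) * (a.1 1 1 : L) - (a.1 0 1 : L) * (a.1 1 0 : L) = 1 := by
      exact_mod_cast congrArg (Subtype.val) h1
    refine ⟨_, _, _, _, h2, (a.1 0 0).2, (a.1 0 1).2, (a.1 1 0).2, (a.1 1 1).2, ?_⟩
    apply Units.ext
    ext i j
    rw [φ_apply]
    fin_cases i <;> fin_cases j <;> simp [mk]
  · rintro ⟨a, b, c, d, h, ha, hb, hc, hd, rfl⟩
    have h1 : (!![(⟨a, ha⟩ : K0), ⟨b, hb⟩; ⟨c, hc⟩, ⟨d, hd⟩]).det = 1 := by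
      rw [Matrix.det_fin_two]
      apply Subtype.ext
      simpa using h
    refine ⟨Matrix.GeneralLinearGroup.mkOfDetNeZero _ (by rw [h1]; exact one_ne_zero), ?_, ?_⟩
    · rw [SetLike.mem_coe, mem_S]
      exact h1
    · apply Units.ext
      ext i j
      rw [φ_apply]
      fin_cases i <;> fin_cases j <;> simp [mk, Matrix.GeneralLinearGroup.mkOfDetNeZero]

/-- the isomorphism -/
noncomputable def e : S ≃* G :=
  (S.equivMapOfInjective φ φ_injective).trans (MulEquiv.subgroupCongr map_S)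

lemma e_apply (x : S) : ((e x : G) : GL2) = φ x := rfl

/-- Let `K` be the union, inside the algebraic closure of the field with two elements, of the finite
fields with `2 ^ (3 ^ k)` elements, and let `G` be the group of all matrices of determinant one in
`GL_2(K)`.  Then `G` is invariably generated: if one conjugates every element `s` of `G` by an
arbitrary element `g s` of `G`, the conjugates always generate `G`.  But `G` is an infinite simple
group, and it has no solvable subgroup of finite index. -/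
theorem result :
    ∃ K : Subfield (AlgebraicClosure (ZMod 2)),
      (K : Set (AlgebraicClosure (ZMod 2))) = {x | ∃ k : ℕ, x ^ 2 ^ 3 ^ k = x} ∧
      ∃ G : Subgroup (Matrix.GeneralLinearGroup (Fin 2) K),
        (∀ a : Matrix.GeneralLinearGroup (Fin 2) K,
          a ∈ G ↔ (a : Matrix (Fin 2) (Fin 2) K).det = 1) ∧
        (∀ g : G → G, Subgroup.closure (Set.range fun s : G => (g s)⁻¹ * s * g s) = ⊤) ∧
        Infinite G ∧ IsSimpleGroup G ∧
        ∀ H : Subgroup G, H.FiniteIndex → ¬ IsSolvable H := by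
  have hinf : Infinite S := e.toEquiv.infinite_iff.2 infinite_G
  have hsimp : IsSimpleGroup S := e.isSimpleGroup_congr.2 isSimpleGroup_G
  refine ⟨K0, rfl, S, mem_S, ?_, hinf, hsimp, ?_⟩
  · intro g
    set C : Subgroup S := Subgroup.closure (Set.range fun s : S => (g s)⁻¹ * s * g s) with hC
    have key : G ≤ C.map (G.subtype.comp e.toMonoidHom) := by
      apply main
      · rintro _ ⟨c, _, rfl⟩
        exact (e c).2
      · intro x hx
        obtain ⟨s, hs⟩ := e.surjective ⟨x, hx⟩
        have hs' : ((e s : G) : GL2) = x := congrArg Subtype.val hs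
        refine ⟨((e (g s))⁻¹ : G), ((e (g s))⁻¹ : G).2, (g s)⁻¹ * s * g s,
          Subgroup.subset_closure ⟨s, rfl⟩, ?_⟩
        show ((e ((g s)⁻¹ * s * g s) : G) : GL2) = _
        rw [map_mul, map_mul, map_inv, ← hs']
        simp
    rw [eq_top_iff]
    intro s _
    obtain ⟨c, hc, hcs⟩ := key (e s).2
    have h1 : e c = e s := Subtype.ext hcs
    rwa [← e.injective h1]
  · intro H hH hsol
    have h1 : Group.IsSolvable H := hsol
    rcases (inferInstance : H.normalCore.Normal).eq_bot_or_eq_top with h | h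
    · have hfi : H.normalCore.FiniteIndex := inferInstance
      rw [h] at hfi
      have hfin : Finite (S ⧸ (⊥ : Subgroup S)) := Subgroup.finite_quotient_of_finiteIndex
      have : Finite S := Finite.of_equiv _ (QuotientGroup.quotientBot (G := S)).toEquiv
      exact not_finite S
    · have h2 : H = ⊤ := by
        rw [eq_top_iff, ← h]
        exact Subgroup.normalCore_le H
      subst h2
      have h3 : Group.IsSolvable S :=
        Group.isSolvable_of_isSolvable_injective
          (f := (Subgroup.topEquiv (G := S)).symm.toMonoidHom)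
          (Subgroup.topEquiv (G := S)).symm.injective
      have h4 := IsSimpleGroup.comm_iff_isSolvable.2 h3
      apply not_comm
      intro a b
      have := h4 (e.symm a) (e.symm b)
      rw [← map_mul, ← map_mul] at this
      exact e.symm.injective this

end Pool.Agent.Results.MP_d69214_al.SimpleLinearIG
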